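import Pool.Agent.W114.TP2.Main

set_option autoImplicit false

namespace Pool.Agent.W114.TP2

open Finset
open scoped Classical

theorem core {V : Type*} [Fintype V] (R B : SimpleGraph V)
    (hdeg : ∀ v, 3 * (N R B v).card ≤ Fintype.card V + 2) :
    ∃ S T : Set V, Disjoint S T ∧ S ∪ T = Set.univ ∧
      (S = ∅ ∨ (R.induce S).Connected ∨ (B.induce S).Connected) ∧
      (T = ∅ ∨ (R.induce T).Connected ∨ (B.induce T).Connected) := by
  by_cases hR : ∃ u1 u2 u3 : V, R.connectedComponentMk u1 ≠ R.connectedComponentMk u2 ∧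
      R.connectedComponentMk u1 ≠ R.connectedComponentMk u3 ∧
      R.connectedComponentMk u2 ≠ R.connectedComponentMk u3
  swap
  · obtain ⟨S, T, h1, h2, h3, h4⟩ := two_comps R hR
    exact ⟨S, T, h1, h2, h3.imp id Or.inl, h4.imp id Or.inl⟩
  by_cases hB : ∃ u1 u2 u3 : V, B.connectedComponentMk u1 ≠ B.connectedComponentMk u2 ∧
      B.connectedComponentMk u1 ≠ B.connectedComponentMk u3 ∧
      B.connectedComponentMk u2 ≠ B.connectedComponentMk u3
  swap
  · obtain ⟨S, T, h1, h2, h3, h4⟩ := two_comps B hB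
    exact ⟨S, T, h1, h2, h3.imp id Or.inr, h4.imp id Or.inr⟩
  obtain ⟨u1, u2, u3, hu12, hu13, hu23⟩ := hR
  obtain ⟨t1, t2, t3, ht12, ht13, ht23⟩ := hB
  obtain ⟨p, q, hcov⟩ := cover_of_no_three (fun v => R.connectedComponentMk v)
    (fun v => B.connectedComponentMk v)
    (fun u v w a1 a2 a3 a4 a5 a6 => no_three R B hdeg u v w a1 a2 a3 a4 a5 a6)
    u1 u2 u3 hu12 hu13 hu23 t1 t2 t3 ht12 ht13 ht23
  obtain ⟨x, x', hx, hx', hxx'⟩ := exists_two_ne (fun v => B.connectedComponentMk v)
    t1 t2 t3 ht12 ht13 ht23 (B.connectedComponentMk p)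
  obtain ⟨y, y', hy, hy', hyy'⟩ := exists_two_ne (fun v => R.connectedComponentMk v)
    u1 u2 u3 hu12 hu13 hu23 (R.connectedComponentMk q)
  by_cases hXc : ∀ u v, B.connectedComponentMk u ≠ B.connectedComponentMk p →
      B.connectedComponentMk v ≠ B.connectedComponentMk p → u ≠ v → R.Adj u v ∨ B.Adj u v
  · refine ⟨{v | B.connectedComponentMk v ≠ B.connectedComponentMk p},
      {v | B.connectedComponentMk v = B.connectedComponentMk p}, ?_, ?_,
      Or.inr (Or.inl (complete_case R B _ x x' hx hx' hxx' hXc)),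
      Or.inr (Or.inr (conn_comp B p))⟩
    · rw [Set.disjoint_left]
      intro v h1 h2
      exact h1 h2
    · ext v
      simp only [Set.mem_univ, iff_true]
      by_cases h : B.connectedComponentMk v = B.connectedComponentMk p
      · exact Or.inr h
      · exact Or.inl h
  by_cases hYc : ∀ u v, R.connectedComponentMk u ≠ R.connectedComponentMk q →
      R.connectedComponentMk v ≠ R.connectedComponentMk q → u ≠ v → B.Adj u v ∨ R.Adj u v
  · refine ⟨{v | R.connectedComponentMk v ≠ R.connectedComponentMk q},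
      {v | R.connectedComponentMk v = R.connectedComponentMk q}, ?_, ?_,
      Or.inr (Or.inr (complete_case B R _ y y' hy hy' hyy' hYc)),
      Or.inr (Or.inl (conn_comp R q))⟩
    · rw [Set.disjoint_left]
      intro v h1 h2
      exact h1 h2
    · ext v
      simp only [Set.mem_univ, iff_true]
      by_cases h : R.connectedComponentMk v = R.connectedComponentMk q
      · exact Or.inr h
      · exact Or.inl h
  push Not at hXc hYc
  obtain ⟨x1, x2, hx1, hx2, hx12, hxR, hxB⟩ := hXc
  obtain ⟨y1, y2, hy1, hy2, hy12, hyB, hyR⟩ := hYc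
  obtain ⟨S, T, h1, h2, h3, h4⟩ := main_case R B _ _ hdeg hcov x1 x2 y1 y2 hx1 hx2 hx12 hxR hxB
    hy1 hy2 hy12 hyR hyB
  exact ⟨S, T, h1, h2, Or.inr (Or.inl h3), Or.inr (Or.inr h4)⟩

theorem final (V : Type*) [Fintype V] [DecidableEq V] (G : SimpleGraph V) [DecidableRel G.Adj]
    (hG : 2 * Fintype.card V ≤ 3 * G.minDegree + 5) (c : Sym2 V → Fin 2) :
    ∃ A B : Set V, Disjoint A B ∧ A ∪ B = Set.univ ∧
      (A = ∅ ∨ ∃ i : Fin 2, ((G.deleteEdges {e | c e ≠ i}).induce A).Connected) ∧
      (B = ∅ ∨ ∃ i : Fin 2, ((G.deleteEdges {e | c e ≠ i}).induce B).Connected) := by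
  have key := core (G.deleteEdges {e | c e ≠ 0}) (G.deleteEdges {e | c e ≠ 1}) ?_
  · obtain ⟨S, T, h1, h2, h3, h4⟩ := key
    refine ⟨S, T, h1, h2, ?_, ?_⟩
    · rcases h3 with h | h | h
      · exact Or.inl h
      · exact Or.inr ⟨0, h⟩
      · exact Or.inr ⟨1, h⟩
    · rcases h4 with h | h | h
      · exact Or.inl h
      · exact Or.inr ⟨0, h⟩
      · exact Or.inr ⟨1, h⟩
  · intro v
    have hsub : Disjoint (N (G.deleteEdges {e | c e ≠ 0}) (G.deleteEdges {e | c e ≠ 1}) v)
        (G.neighborFinset v) := by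
      rw [Finset.disjoint_left]
      intro w hw hw'
      rw [mem_N] at hw
      rw [SimpleGraph.mem_neighborFinset] at hw'
      obtain ⟨_, h0, h1⟩ := hw
      rw [SimpleGraph.deleteEdges_adj] at h0 h1
      have hc : c s(v, w) = 0 ∨ c s(v, w) = 1 := by
        have : ∀ i : Fin 2, i = 0 ∨ i = 1 := by decide
        exact this _
      rcases hc with h | h
      · exact h0 ⟨hw', fun h' => h' h⟩
      · exact h1 ⟨hw', fun h' => h' h⟩
    have hsub2 : N (G.deleteEdges {e | c e ≠ 0}) (G.deleteEdges {e | c e ≠ 1}) v ∪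
        G.neighborFinset v ⊆ univ.erase v := by
      intro w hw
      rw [mem_union] at hw
      rw [mem_erase]
      refine ⟨?_, mem_univ _⟩
      rcases hw with hw | hw
      · exact (mem_N.1 hw).1
      · rw [SimpleGraph.mem_neighborFinset] at hw
        exact hw.ne'
    have hle := card_le_card hsub2
    rw [card_union_of_disjoint hsub, SimpleGraph.card_neighborFinset_eq_degree,
      card_erase_of_mem (mem_univ v), card_univ] at hle
    have hd := G.minDegree_le_degree v
    have hpos : 0 < Fintype.card V := Fintype.card_pos_iff.2 ⟨v⟩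
    omega

end Pool.Agent.W114.TP2
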