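import Pool.Agent.W114.TP2.Basic

set_option autoImplicit false

namespace Pool.Agent.W114.TP2

open Finset
open scoped Classical

variable {V : Type*} [Fintype V]

/-- Non-neighbours of `v` in the union of the two graphs. -/
noncomputable def N (R B : SimpleGraph V) (v : V) : Finset V :=
  univ.filter (fun w => w ≠ v ∧ ¬ R.Adj v w ∧ ¬ B.Adj v w)

lemma mem_N {R B : SimpleGraph V} {v w : V} :
    w ∈ N R B v ↔ w ≠ v ∧ ¬ R.Adj v w ∧ ¬ B.Adj v w := by
  simp [N]

lemma comp_eq {V : Type*} {A : SimpleGraph V} {u v : V} (h : A.Adj u v) :
    A.connectedComponentMk u = A.connectedComponentMk v :=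
  SimpleGraph.ConnectedComponent.sound h.reachable

lemma mem_N_of {R B : SimpleGraph V} {v w : V}
    (hr : R.connectedComponentMk w ≠ R.connectedComponentMk v)
    (hb : B.connectedComponentMk w ≠ B.connectedComponentMk v) : w ∈ N R B v := by
  rw [mem_N]
  refine ⟨?_, ?_, ?_⟩
  · rintro rfl; exact hr rfl
  · intro h; exact hr (comp_eq h).symm
  · intro h; exact hb (comp_eq h).symm

omit [Fintype V] in
lemma card_two {S1 S2 T : Finset V} (h12 : Disjoint S1 S2) (h1 : S1 ⊆ T) (h2 : S2 ⊆ T) :
    S1.card + S2.card ≤ T.card := by
  rw [← card_union_of_disjoint h12]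
  exact card_le_card (union_subset h1 h2)

omit [Fintype V] in
lemma card_three {S1 S2 S3 T : Finset V} (h12 : Disjoint S1 S2) (h13 : Disjoint S1 S3)
    (h23 : Disjoint S2 S3) (h1 : S1 ⊆ T) (h2 : S2 ⊆ T) (h3 : S3 ⊆ T) :
    S1.card + S2.card + S3.card ≤ T.card := by
  rw [← card_union_of_disjoint h12]
  exact card_two (disjoint_union_left.2 ⟨h13, h23⟩) (union_subset h1 h2) h3

lemma no_three (R B : SimpleGraph V) (hdeg : ∀ v, 3 * (N R B v).card ≤ Fintype.card V + 2)
    (u v w : V)
    (r12 : R.connectedComponentMk u ≠ R.connectedComponentMk v)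
    (r13 : R.connectedComponentMk u ≠ R.connectedComponentMk w)
    (r23 : R.connectedComponentMk v ≠ R.connectedComponentMk w)
    (b12 : B.connectedComponentMk u ≠ B.connectedComponentMk v)
    (b13 : B.connectedComponentMk u ≠ B.connectedComponentMk w)
    (b23 : B.connectedComponentMk v ≠ B.connectedComponentMk w) : False := by
  have hs : ∀ S : Finset V, (∑ x : V, (if x ∈ S then 1 else 0)) = S.card := by
    intro S; simp
  have huv : u ≠ v := by rintro rfl; exact r12 rfl
  have huw : u ≠ w := by rintro rfl; exact r13 rfl
  have hvw : v ≠ w := by rintro rfl; exact r23 rfl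
  have hpt : ∀ x : V, (1 + if x ∈ ({u, v, w} : Finset V) then 1 else 0) ≤
      (if x ∈ N R B u then 1 else 0) + (if x ∈ N R B v then 1 else 0) +
        (if x ∈ N R B w then 1 else 0) := by
    intro x
    by_cases hx : x ∈ ({u, v, w} : Finset V)
    · simp only [mem_insert, mem_singleton] at hx
      rcases hx with rfl | rfl | rfl
      · have h1 : x ∈ N R B v := mem_N_of r12 b12
        have h2 : x ∈ N R B w := mem_N_of r13 b13
        simp [h1, h2]
      · have h1 : x ∈ N R B u := mem_N_of r12.symm b12.symm
        have h2 : x ∈ N R B w := mem_N_of r23 b23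
        simp [h1, h2]
      · have h1 : x ∈ N R B u := mem_N_of r13.symm b13.symm
        have h2 : x ∈ N R B v := mem_N_of r23.symm b23.symm
        simp [h1, h2]
    · have key : x ∈ N R B u ∨ x ∈ N R B v ∨ x ∈ N R B w := by
        by_contra hne
        push Not at hne
        obtain ⟨n1, n2, n3⟩ := hne
        have c1 : R.connectedComponentMk x = R.connectedComponentMk u ∨
            B.connectedComponentMk x = B.connectedComponentMk u := by
          by_contra h; push Not at h; exact n1 (mem_N_of h.1 h.2)
        have c2 : R.connectedComponentMk x = R.connectedComponentMk v ∨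
            B.connectedComponentMk x = B.connectedComponentMk v := by
          by_contra h; push Not at h; exact n2 (mem_N_of h.1 h.2)
        have c3 : R.connectedComponentMk x = R.connectedComponentMk w ∨
            B.connectedComponentMk x = B.connectedComponentMk w := by
          by_contra h; push Not at h; exact n3 (mem_N_of h.1 h.2)
        rcases c1 with c1 | c1 <;> rcases c2 with c2 | c2 <;> rcases c3 with c3 | c3
        · exact r12 (c1.symm.trans c2)
        · exact r12 (c1.symm.trans c2)
        · exact r13 (c1.symm.trans c3)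
        · exact b23 (c2.symm.trans c3)
        · exact r23 (c2.symm.trans c3)
        · exact b13 (c1.symm.trans c3)
        · exact b12 (c1.symm.trans c2)
        · exact b12 (c1.symm.trans c2)
      rw [if_neg hx]
      rcases key with h | h | h
      · rw [if_pos h]; omega
      · rw [if_pos h]; omega
      · rw [if_pos h]; omega
  have hsum := Finset.sum_le_sum (fun x (_ : x ∈ (univ : Finset V)) => hpt x)
  simp only [Finset.sum_add_distrib] at hsum
  rw [hs, hs, hs, hs] at hsum
  have h3 : ({u, v, w} : Finset V).card = 3 := by
    rw [card_insert_of_notMem (by simp [huv, huw]), card_pair hvw]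
  rw [h3] at hsum
  simp only [sum_const, card_univ, smul_eq_mul, mul_one] at hsum
  have := hdeg u
  have := hdeg v
  have := hdeg w
  omega

/-- At most two components: partition into components. -/
lemma two_comps {V : Type*} (A : SimpleGraph V)
    (h : ¬ ∃ u1 u2 u3 : V, A.connectedComponentMk u1 ≠ A.connectedComponentMk u2 ∧
      A.connectedComponentMk u1 ≠ A.connectedComponentMk u3 ∧
      A.connectedComponentMk u2 ≠ A.connectedComponentMk u3) :
    ∃ S T : Set V, Disjoint S T ∧ S ∪ T = Set.univ ∧
      (S = ∅ ∨ (A.induce S).Connected) ∧ (T = ∅ ∨ (A.induce T).Connected) := by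
  by_cases hV : IsEmpty V
  · refine ⟨∅, ∅, by simp, ?_, Or.inl rfl, Or.inl rfl⟩
    exact Subsingleton.elim _ _
  · rw [not_isEmpty_iff] at hV
    obtain ⟨u⟩ := hV
    by_cases h1 : ∀ v, A.connectedComponentMk v = A.connectedComponentMk u
    · refine ⟨{v | A.connectedComponentMk v = A.connectedComponentMk u}, ∅, by simp, ?_,
        Or.inr (conn_comp A u), Or.inl rfl⟩
      ext v
      simp only [Set.union_empty, Set.mem_univ, iff_true]
      exact h1 v
    · push Not at h1
      obtain ⟨w, hw⟩ := h1
      refine ⟨{v | A.connectedComponentMk v = A.connectedComponentMk u},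
        {v | A.connectedComponentMk v = A.connectedComponentMk w}, ?_, ?_,
        Or.inr (conn_comp A u), Or.inr (conn_comp A w)⟩
      · rw [Set.disjoint_left]
        intro v hv hv'
        exact hw (hv'.symm.trans hv)
      · ext v
        simp only [Set.mem_union, Set.mem_setOf_eq, Set.mem_univ, iff_true]
        by_contra hne
        push Not at hne
        exact h ⟨v, u, w, hne.1, hne.2, hw.symm⟩

/-- If the outside of a component of `B` is complete, it is connected in `R`. -/
lemma complete_case {V : Type*} (R B : SimpleGraph V) (β : B.ConnectedComponent) (x x' : V)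
    (hx : B.connectedComponentMk x ≠ β) (hx' : B.connectedComponentMk x' ≠ β)
    (hxx' : B.connectedComponentMk x ≠ B.connectedComponentMk x')
    (hc : ∀ u v, B.connectedComponentMk u ≠ β → B.connectedComponentMk v ≠ β → u ≠ v →
      R.Adj u v ∨ B.Adj u v) :
    (R.induce {v | B.connectedComponentMk v ≠ β}).Connected := by
  have hadj : ∀ u v, B.connectedComponentMk u ≠ β → B.connectedComponentMk v ≠ β →
      B.connectedComponentMk u ≠ B.connectedComponentMk v → R.Adj u v := by
    intro u v hu hv huv
    rcases hc u v hu hv (by rintro rfl; exact huv rfl) with h | h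
    · exact h
    · exact absurd (comp_eq h) huv
  refine conn_of_root R _ x hx ?_
  intro v hv
  by_cases h : B.connectedComponentMk v = B.connectedComponentMk x
  · have hvx' : B.connectedComponentMk v ≠ B.connectedComponentMk x' := by rw [h]; exact hxx'
    have s1 := reach_step R {v | B.connectedComponentMk v ≠ β} ⟨x, hx⟩ x x' hx hx'
      (SimpleGraph.Reachable.refl _) (hadj x x' hx hx' hxx')
    exact reach_step R _ ⟨x, hx⟩ x' v hx' hv s1 (hadj x' v hx' hv hvx'.symm)
  · exact reach_step R _ ⟨x, hx⟩ x v hx hv (SimpleGraph.Reachable.refl _)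
      (hadj x v hx hv (Ne.symm h))

end Pool.Agent.W114.TP2
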